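import Pool.Agent.helper36.NU.D3a

/-! The statements of module D3a are proved in the imported file. -/
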