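import Pool.Agent.helper4.NU.Q11

/-! The statements of module Q11 are proved in the imported file. -/
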