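import Pool.Agent.helper78.NU.Q6a

/-! The statements of module Q6a are proved in the imported file. -/
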