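import Pool.Agent.helper39.NU.M3c

/-! The statements of module M3c are proved in the imported file. -/
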