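import Pool.Agent.helper45.NU.Q1

/-! The statements of module Q1 are proved in the imported file. -/
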